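import Mathlib

set_option autoImplicit false

namespace Pool.Agent.Results.MP_e14bb7_co.Avg

/-- `G` is uniquely `k`-list colourable, with colours taken from the type `α`. -/
def UkLC {V : Type} (G : SimpleGraph V) (k : ℕ) (α : Type) : Prop :=
  ∃ L : V → Finset α, (∀ v, (L v).card = k) ∧
    ∃! c : V → α, (∀ v, c v ∈ L v) ∧ ∀ u v, G.Adj u v → c u ≠ c v

open Classical in
noncomputable def wt {F : Type} [Field F] (S : Finset F) (s : F) : F := (∏ j ∈ S.erase s, (s - j))⁻¹

open Classical in
theorem wt_ne {F : Type} [Field F] (S : Finset F) (s : F) : wt S s ≠ 0 :=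
  inv_ne_zero (Finset.prod_ne_zero_iff.2 fun _ hj => sub_ne_zero.2 (Finset.ne_of_mem_erase hj).symm)

theorem one_var {F : Type} [Field F] (S : Finset F) (k d : ℕ) (h : S.card = k + 1) (hd : d ≤ k) :
    ∑ s ∈ S, s ^ d * wt S s = if d = k then 1 else 0 := by
  classical
  have := Lagrange.coeff_eq_sum (s := S) (v := id) (Set.injOn_id _) (P := Polynomial.X ^ d) (by
    rw [Polynomial.degree_X_pow, h]; exact_mod_cast Nat.lt_succ_of_le hd)
  rw [h, Nat.add_sub_cancel, Polynomial.coeff_X_pow] at this
  simp only [eq_comm (a := d), this, wt, div_eq_mul_inv, Polynomial.eval_pow, Polynomial.eval_X, id]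

open Classical in
theorem formula {V F : Type} [Fintype V] [Field F] (P : MvPolynomial V F) (k : ℕ)
    (hP : P.totalDegree ≤ Fintype.card V * k) (S : V → Finset F) (hS : ∀ v, (S v).card = k + 1) :
    ∑ c ∈ Fintype.piFinset S, MvPolynomial.eval c P * ∏ v, wt (S v) (c v) =
      ∑ d ∈ P.support, P.coeff d * if ∀ v, d v = k then 1 else 0 := by
  simp only [MvPolynomial.eval_eq', Finset.sum_mul]
  rw [Finset.sum_comm]
  refine Finset.sum_congr rfl fun d hd => ?_
  simp only [mul_assoc, ← Finset.mul_sum, ← Finset.prod_mul_distrib]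
  rw [← Finset.prod_univ_sum S fun v s => s ^ d v * wt (S v) s]
  congr 1
  split_ifs with h
  · exact Finset.prod_eq_one fun v _ => by rw [one_var _ k _ (hS v) (h v).le, if_pos (h v)]
  · have h1 : ∑ v, d v ≤ Fintype.card V * k := by
      refine le_trans (le_of_eq ?_) ((MvPolynomial.le_totalDegree hd).trans hP)
      rw [Finsupp.sum_fintype _ _ (fun _ => rfl)]
    have : ∃ v, d v < k := by
      by_contra h2
      push Not at h h2
      obtain ⟨v, hv⟩ := h
      have := Finset.sum_lt_sum (s := Finset.univ) (f := fun _ => k) (g := d) (fun i _ => h2 i)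
        ⟨v, Finset.mem_univ _, lt_of_le_of_ne (h2 v) hv.symm⟩
      simp only [Finset.sum_const, Finset.card_univ, smul_eq_mul] at this
      omega
    obtain ⟨v, hv⟩ := this
    exact Finset.prod_eq_zero (Finset.mem_univ v) (by rw [one_var _ k _ (hS v) hv.le, if_neg hv.ne])

theorem exists_S (k : ℕ) (hk : 2 ≤ k) : ∃ (F : Type) (_ : Field F) (_ : Infinite F) (S : Finset F),
    S.card = k ∧ ∀ s, s + 1 ∈ S ↔ s ∈ S := by
  classical
  obtain ⟨p, hp, m, rfl⟩ := Nat.exists_prime_and_dvd (show k ≠ 1 by omega)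
  haveI := Fact.mk hp
  have inj := IsFractionRing.injective (Polynomial (ZMod p)) (FractionRing (Polynomial (ZMod p)))
  let f : ℕ × ZMod p → FractionRing (Polynomial (ZMod p)) := fun x =>
    algebraMap (Polynomial (ZMod p)) _ (Polynomial.X ^ (x.1 + 1) + Polynomial.C x.2)
  have hf : Function.Injective f := by
    rintro ⟨a, b⟩ ⟨c, d⟩ h
    have h1 := inj h
    have h2 : b = d := by simpa using congrArg (Polynomial.coeff · 0) h1
    have h3 := congrArg Polynomial.natDegree h1
    simp only [Polynomial.natDegree_X_pow_add_C] at h3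
    rw [h2, show a = c by omega]
  have e : ∀ a b, f (a, b) + 1 = f (a, b + 1) := fun a b => by simp [f, add_assoc]
  refine ⟨_, inferInstance, Infinite.of_injective _ inj, (Finset.range m ×ˢ Finset.univ).image f,
    by rw [Finset.card_image_of_injective _ hf]; simp [mul_comm], fun s => ?_⟩
  simp only [Finset.mem_image, Finset.mem_product, Finset.mem_univ, and_true, Prod.exists]
  constructor
  · rintro ⟨a, b, h, h'⟩
    exact ⟨a, b - 1, h, add_right_cancel (by rw [e, sub_add_cancel, h'])⟩
  · rintro ⟨a, b, h, rfl⟩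
    exact ⟨a, b + 1, h, (e a b).symm⟩

theorem result (V : Type) [Fintype V] [Nonempty V] (G : SimpleGraph V) (k : ℕ) (hk : 2 ≤ k)
    (h : (2 * G.edgeSet.ncard : ℚ) / Fintype.card V = 2 * k - 2) (α : Type) : ¬ UkLC G k α := by
  classical
  rintro ⟨L, hL, c0, ⟨hc0, hp0⟩, huniq⟩
  obtain ⟨F, _, _, S, hS, hS1⟩ := exists_S k hk
  obtain ⟨k, rfl⟩ : ∃ j, k = j + 1 := ⟨k - 1, by omega⟩
  have hm : G.edgeFinset.card = Fintype.card V * k := by
    have h0 : (Fintype.card V : ℚ) ≠ 0 := by exact_mod_cast Fintype.card_ne_zero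
    rw [div_eq_iff h0, Set.ncard_eq_toFinset_card'] at h
    have : (G.edgeFinset.card : ℚ) = Fintype.card V * k := by
      push_cast at h; unfold SimpleGraph.edgeFinset; linarith
    exact_mod_cast this
  let P : MvPolynomial V F := ∏ e ∈ G.edgeFinset, (MvPolynomial.X e.out.1 - MvPolynomial.X e.out.2)
  have hP : P.totalDegree ≤ Fintype.card V * k := by
    refine (MvPolynomial.totalDegree_finsetProd _ _).trans ?_
    rw [← hm, Finset.card_eq_sum_ones]
    exact Finset.sum_le_sum fun e _ => (MvPolynomial.totalDegree_sub _ _).trans (by simp)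
  have ev : ∀ c : V → F, MvPolynomial.eval c P = ∏ e ∈ G.edgeFinset, (c e.out.1 - c e.out.2) :=
    fun c => by simp [P]
  have evz : ∀ c : V → F, MvPolynomial.eval c P ≠ 0 ↔ ∀ u v, G.Adj u v → c u ≠ c v := by
    intro c
    rw [ev, Finset.prod_ne_zero_iff]
    constructor
    · intro h u v huv
      have h1 := sub_ne_zero.1 (h s(u, v) (by simpa using huv))
      have h2 : s((s(u, v)).out.1, (s(u, v)).out.2) = s(u, v) := Quot.out_eq _
      rcases Sym2.eq_iff.1 h2 with ⟨a, b⟩ | ⟨a, b⟩
      · rwa [a, b] at h1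
      · rw [a, b] at h1; exact h1.symm
    · intro h e he
      have h2 : s(e.out.1, e.out.2) = e := Quot.out_eq _
      rw [← h2, SimpleGraph.mem_edgeFinset, SimpleGraph.mem_edgeSet] at he
      exact sub_ne_zero.2 (h _ _ he)
  let U := Finset.univ.biUnion L
  obtain ⟨φ, hφ⟩ : ∃ φ : α → F, Set.InjOn φ U :=
    ⟨fun x => if h : x ∈ U then Infinite.natEmbedding F (U.equivFin ⟨x, h⟩) else 0, by
      intro x hx y hy e
      simp only [dif_pos (Finset.mem_coe.1 hx), dif_pos (Finset.mem_coe.1 hy)] at e
      exact congrArg Subtype.val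
        (U.equivFin.injective (Fin.ext ((Infinite.natEmbedding F).injective e)))⟩
  have hU : ∀ v, ∀ x ∈ L v, x ∈ (U : Set α) := fun v x hx => by
    simp only [U, Finset.coe_biUnion, Set.mem_iUnion]; exact ⟨v, by simp, hx⟩
  have e1 := formula P k hP (fun v => (L v).image φ) fun v => by
    rw [Finset.card_image_of_injOn (hφ.mono (hU v)), hL]
  have e2 := formula P k hP (fun _ => S) fun _ => hS
  rw [← e2, Finset.sum_eq_single (φ ∘ c0)] at e1
  · refine mul_ne_zero ((evz _).2 fun u v huv e => hp0 u v huv (hφ (hU _ _ (hc0 u))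
      (hU _ _ (hc0 v)) e)) (Finset.prod_ne_zero_iff.2 fun v _ => wt_ne _ _) (e1.trans ?_)
    obtain ⟨v0⟩ := ‹Nonempty V›
    have hw : ∀ s, wt S (s + 1) = wt S s := by
      intro s
      unfold wt
      congr 1
      symm
      refine Finset.prod_nbij' (· + 1) (· - 1) (fun j hj => ?_) (fun j hj => ?_) (by simp) (by simp)
        (fun j _ => by ring)
      · simpa [hS1] using hj
      · rw [Finset.mem_erase, ← hS1, sub_add_cancel, Ne, sub_eq_iff_eq_add]
        exact Finset.mem_erase.1 hj
    have key : ∑ c ∈ Fintype.piFinset fun _ : V => S,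
        MvPolynomial.eval c P * (∏ v, wt S (c v)) * (c v0 + 1) =
        ∑ c ∈ Fintype.piFinset fun _ : V => S, MvPolynomial.eval c P * (∏ v, wt S (c v)) * c v0 := by
      refine Finset.sum_nbij' (fun c v => c v + 1) (fun c v => c v - 1) (fun c hc => ?_)
        (fun c hc => ?_) (fun c _ => by simp) (fun c _ => by simp) (fun c _ => ?_)
      · simpa [hS1] using hc
      · rw [Fintype.mem_piFinset] at hc ⊢
        intro v; rw [← hS1, sub_add_cancel]; exact hc v
      · simp only [ev, hw, add_sub_add_right_eq_sub]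
    simpa [mul_add, Finset.sum_add_distrib] using key
  · intro c hc hne
    refine mul_eq_zero_of_left ?_ _
    by_contra h0
    rw [Fintype.mem_piFinset] at hc
    choose c' hc' e using fun v => Finset.mem_image.1 (hc v)
    have := huniq c' ⟨hc', fun u v huv e' => (evz c).1 h0 u v huv (by rw [← e, ← e, e'])⟩
    exact hne (funext fun v => by rw [← e, this]; rfl)
  · intro h
    exact absurd (Fintype.mem_piFinset.2 fun v => Finset.mem_image_of_mem _ (hc0 v)) h

end Pool.Agent.Results.MP_e14bb7_co.Avg
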